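import Mathlib
import Pool.Agent.L7h73.NWC

/-!
# The Ulam game does not determine the game `G*`

`KAlg κ A` and `KUlt κ A U` (`κ`-complete subalgebras `A` of `𝒫(K)`, uniform `κ`-complete
ultrafilters `U` on them) are defined in `Pool.Agent.L7h73.NWC`.

A strategy of Player II is a function of the stage and of the sequence of the moves of Player I
which, at stage `α`, depends only on the moves of Player I at the stages `≤ α`.
-/

namespace Pool.Agent.Results.MP_0eb1a9_lc.UlamNotGStar

open Cardinal Set Pool.Agent.L7h73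

universe u

/-- The piece chosen by Player II at stage `α` of the Ulam game if she follows `σ` and Player I
plays `P`. -/
def pick {K : Type u} (σ : Ordinal.{u} → (Ordinal.{u} → Set K × Set K) → Bool)
    (P : Ordinal.{u} → Set K × Set K) (α : Ordinal.{u}) : Set K :=
  if σ α P then (P α).1 else (P α).2

/-- Player II has a winning strategy in the Ulam game of length `γ` on `K`: at stage `α < γ`
Player I partitions the intersection of the earlier choices of Player II (it is `K` at stage `0`)
into two disjoint pieces, Player II chooses one of them, and she wins if the intersection of all her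
choices has at least two elements. -/
def WinsUlam (K : Type u) (γ : Ordinal.{u}) : Prop :=
  ∃ σ : Ordinal.{u} → (Ordinal.{u} → Set K × Set K) → Bool,
    (∀ α P Q, (∀ β ≤ α, P β = Q β) → σ α P = σ α Q) ∧
    ∀ P : Ordinal.{u} → Set K × Set K,
      (∀ α < γ, (P α).1 ∪ (P α).2 = {x | ∀ β < α, x ∈ pick σ P β} ∧
        (P α).1 ∩ (P α).2 = ∅) →
      {x | ∀ α < γ, x ∈ pick σ P α}.Nontrivial

/-- The `κ`-complete subalgebra generated by `S`. -/
def gen {K : Type u} (κ : Cardinal.{u}) (S : Set (Set K)) : Set (Set K) :=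
  ⋂₀ {A | KAlg κ A ∧ S ⊆ A}

/-- The move of Player I at stage `α` of the Welch game is legal: it is a `κ`-complete subalgebra
with `κ` members, it extends the earlier moves and contains the singletons. -/
def LegalI {K : Type u} (κ : Cardinal.{u}) (P : Ordinal.{u} → Set (Set K)) (α : Ordinal.{u}) :
    Prop :=
  KAlg κ (P α) ∧ #(P α) = κ ∧ (∀ β < α, P β ⊆ P α) ∧ ∀ x, {x} ∈ P α

/-- Player II has a winning strategy in the game `G*_γ` on `K`, where `κ` is the cardinality
of `K`: as long as the moves of Player I are legal, she answers by uniform `κ`-complete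
ultrafilters extending the earlier ones, and after `γ` stages the union of
her moves extends to a uniform `κ`-complete ultrafilter on the `κ`-complete
algebra generated by the union of the moves of Player I. -/
def WinsGStar {K : Type u} (κ : Cardinal.{u}) (γ : Ordinal.{u}) : Prop :=
  ∃ τ : Ordinal.{u} → (Ordinal.{u} → Set (Set K)) → Set (Set K),
    (∀ α P Q, (∀ β ≤ α, P β = Q β) → τ α P = τ α Q) ∧
    ∀ P : Ordinal.{u} → Set (Set K),
      (∀ α < γ, (∀ β ≤ α, LegalI κ P β) → KUlt κ (P α) (τ α P) ∧ ∀ β < α, τ β P ⊆ τ α P) ∧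
      ((∀ α < γ, LegalI κ P α) →
        ∃ U, KUlt κ (gen κ {S | ∃ α < γ, S ∈ P α}) U ∧ ∀ α < γ, τ α P ⊆ U)

/-- `lam` is a measurable cardinal: it is uncountable and there is a `lam`-complete nonprincipal
ultrafilter on a set of cardinality `lam`. -/
def IsMeasurableCard (lam : Cardinal.{u}) : Prop :=
  ℵ₀ < lam ∧ ∃ (L : Type u) (V : Ultrafilter L), #L = lam ∧ (∀ x, {x} ∉ V) ∧
    ∀ F : Set (Set L), (∀ S ∈ F, S ∈ V) → #F < lam → ⋂₀ F ∈ V

/-- A measurable cardinal below gives a winning strategy in the Ulam game. -/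
theorem winsUlam (lam : Cardinal.{u}) (hm : IsMeasurableCard lam) (K : Type u) (hK : lam ≤ #K)
    (γ : Ordinal.{u}) (hγ : γ < lam.ord) : WinsUlam K γ := by
  classical
  obtain ⟨hω, L, V, hL, hV1, hV2⟩ := hm
  obtain ⟨e⟩ : Nonempty (L ↪ K) := by rw [← Cardinal.le_def, hL]; exact hK
  let W : Ultrafilter K := V.map e
  have hW1 : ∀ x, {x} ∉ W := by
    intro x hx
    have h1 : e ⁻¹' {x} ∈ V := hx
    by_cases hex : ∃ y, e y = x
    · obtain ⟨y, rfl⟩ := hex
      apply hV1 y
      convert h1 using 1
      ext z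
      simp
    · have : e ⁻¹' {x} = ∅ := by
        ext z
        simp only [mem_preimage, mem_singleton_iff, mem_empty_iff_false, iff_false]
        exact fun h => hex ⟨z, h⟩
      rw [this] at h1
      exact V.empty_notMem h1
  have hW2 : ∀ (α : Ordinal.{u}), α < lam.ord → ∀ S : Ordinal.{u} → Set K,
      (∀ β < α, S β ∈ W) → {x | ∀ β < α, x ∈ S β} ∈ W := by
    intro α hα S hS
    have h1 : #α.ToType < lam := by
      rw [mk_toType]
      exact lt_ord.1 hα
    have h2 := hV2 (range fun i : α.ToType => e ⁻¹' (S i.toOrd)) (by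
      rintro _ ⟨i, rfl⟩
      exact hS _ i.toOrd.2) (mk_range_le.trans_lt h1)
    change e ⁻¹' {x | ∀ β < α, x ∈ S β} ∈ V
    convert h2 using 1
    ext y
    simp only [mem_preimage, mem_setOf_eq, sInter_range, mem_iInter]
    constructor
    · intro h i
      exact h _ i.toOrd.2
    · intro h β hβ
      have := h (Ordinal.ToType.mk ⟨β, hβ⟩)
      simpa using this
  refine ⟨fun α P => decide ((P α).1 ∈ W), fun α P Q h => by simp only [h α le_rfl], ?_⟩
  intro P hP
  set σ : Ordinal.{u} → (Ordinal.{u} → Set K × Set K) → Bool :=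
    fun α P => decide ((P α).1 ∈ W) with hσ
  have hB : ∀ α < γ, pick σ P α ∈ W := by
    intro α
    induction α using WellFoundedLT.induction with
    | _ α ih =>
      intro hα
      have h1 : {x | ∀ β < α, x ∈ pick σ P β} ∈ W :=
        hW2 α (hα.trans hγ) _ (fun β hβ => ih β hβ (hβ.trans hα))
      rw [← (hP α hα).1] at h1
      by_cases h2 : (P α).1 ∈ W
      · simp only [pick, hσ, h2, decide_true, if_true]
      · simp only [pick, hσ, h2, decide_false]
        rcases Ultrafilter.union_mem_iff.1 h1 with h3 | h3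
        · exact absurd h3 h2
        · exact h3
  have hfin := hW2 γ hγ _ hB
  by_contra hnt
  rw [not_nontrivial_iff] at hnt
  rcases hnt.eq_empty_or_singleton with h | ⟨x, h⟩
  · rw [h] at hfin
    exact W.empty_notMem hfin
  · rw [h] at hfin
    exact hW1 x hfin

/-- A winning strategy in the Ulam game on `K₀` gives one on each larger set. -/
theorem WinsUlam.mono {K₀ K : Type u} (hK : #K₀ ≤ #K) {γ : Ordinal.{u}} (hw : WinsUlam K₀ γ) :
    WinsUlam K γ := by
  classical
  obtain ⟨σ, hσ1, hσ2⟩ := hw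
  obtain ⟨e⟩ : Nonempty (K₀ ↪ K) := by rwa [← Cardinal.le_def]
  let pb : (Ordinal.{u} → Set K × Set K) → (Ordinal.{u} → Set K₀ × Set K₀) :=
    fun P β => (e ⁻¹' (P β).1, e ⁻¹' (P β).2)
  refine ⟨fun α P => σ α (pb P), fun α P Q h => hσ1 α _ _ (fun β hβ => by simp [pb, h β hβ]), ?_⟩
  intro P hP
  have hpick : ∀ α, pick σ (pb P) α = e ⁻¹' (pick (fun α P => σ α (pb P)) P α) := by
    intro α
    unfold pick
    by_cases h : σ α (pb P) = true
    · simp only [h, if_true, pb]
    · simp only [h]
      rfl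
  have h1 := hσ2 (pb P) (fun α hα => by
    obtain ⟨h3, h4⟩ := hP α hα
    constructor
    · change e ⁻¹' (P α).1 ∪ e ⁻¹' (P α).2 = _
      rw [← preimage_union, h3]
      ext x
      simp only [hpick]
      exact Iff.rfl
    · change e ⁻¹' (P α).1 ∩ e ⁻¹' (P α).2 = _
      rw [← preimage_inter, h4, preimage_empty])
  obtain ⟨x, hx, y, hy, hxy⟩ := h1
  refine ⟨e x, fun α hα => ?_, e y, fun α hα => ?_, fun h => hxy (e.injective h)⟩
  · have := hx α hα
    rw [hpick] at this
    exact this
  · have := hy α hα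
    rw [hpick] at this
    exact this

/-- Player II has a winning strategy in the Ulam game of each length `γ < lam` on a measurable
cardinal `lam`. If she has one in the Ulam game of limit length `γ` on a set `K₀`, and there is
an inaccessible cardinal above the cardinality of `K₀`, then there is an inaccessible
cardinal `κ` (the least one above it) such that Player II has a winning strategy in the Ulam game of
length `γ` on `κ`, but none in `G*_γ`. -/
theorem result :
    (∀ (lam : Cardinal.{u}) (L : Type u), IsMeasurableCard lam → #L = lam →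
      ∀ γ : Ordinal.{u}, γ < lam.ord → WinsUlam L γ) ∧
    (∀ (K₀ : Type u) (γ : Ordinal.{u}), Order.IsSuccLimit γ → WinsUlam K₀ γ →
      (∃ κ : Cardinal.{u}, #K₀ < κ ∧ κ.IsInaccessible) →
      ∃ κ : Cardinal.{u}, #K₀ < κ ∧ κ.IsInaccessible ∧ ∀ K : Type u, #K = κ →
        WinsUlam K γ ∧ ¬ WinsGStar (K := K) κ γ) := by
  classical
  refine ⟨fun lam L hm hL γ hγ => winsUlam lam hm L hL.ge γ hγ, ?_⟩
  intro K₀ γ hγ hw hex
  have hwf : WellFounded ((· < ·) : Cardinal.{u} → Cardinal.{u} → Prop) := wellFounded_lt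
  obtain ⟨κ, ⟨h1, h2⟩, h3⟩ := hwf.has_min {κ : Cardinal.{u} | #K₀ < κ ∧ κ.IsInaccessible} hex
  refine ⟨κ, h1, h2, ?_⟩
  rintro K rfl
  refine ⟨hw.mono h1.le, ?_⟩
  rintro ⟨τ, -, hτ⟩
  obtain ⟨A, hA1, hA2, hA3, hA4⟩ := exists_algebra (K := K) (max ℵ₀ #K₀) (le_max_left _ _)
    (max_lt h2.aleph0_lt h1) h2
    (fun ν hν1 hν2 hν3 => h3 ν ⟨(le_max_right _ _).trans_lt hν1, hν3⟩ hν2)
  have := ((hτ (fun _ => A)).1 0 hγ.bot_lt (fun β _ => ⟨hA1, hA2, fun _ _ => subset_rfl, hA3⟩)).1
  exact hA4 _ this

end Pool.Agent.Results.MP_0eb1a9_lc.UlamNotGStar
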